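import Pool.Agent.U189.FV.Top
import Pool.Agent.Q57.HK.Dir

/-!
# Termination of flips without `ℚ`-factoriality on the modifications of arbitrary varieties with a finite
# morphism to a toric variety

**The varieties.** Let `Y` be any normal projective variety of dimension `n ≥ 1` over `ℂ` with the
function field `K`, and `x 0, ..., x n` sections of an ample line bundle `H` on `Y` without common zeros.
They define a finite morphism from `Y` to the projective `n`-space. `X` is the normalization in `K` of the
toric modification of the projective space which is given by `fan`: a modification of `Y` with a finite
morphism to a toric variety, and a toroidal modification of `Y` if the divisors `x k = 0` have normal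
crossings (see `Pool/Agent/U189/FV/Top.lean`, where the definitions `affine`, `minimalOrder`,
`multiplicities`, `InCone`, `IsFan` and `coefficient` are explained). `D 1, ..., D p` are the pullbacks to
`X` of toric `ℚ`-Cartier divisors; the coefficients of their pullbacks at the prime divisors `P` over `X` are
the `δ i P`.

**The canonical class.** If `K_Y` is `ℚ`-linearly equivalent to a rational multiple of `H` and the
divisors `x k = 0` are multiples of divisors with normal crossings, then `K_X` is `ℚ`-linearly equivalent to a rational
combination `∑ i, κ i * D i` (if the `D i` generate the pullbacks of the toric divisors). Here `Y` can be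
any Calabi-Yau variety, any abelian variety, any hyperkähler variety, any variety with ample `K_Y` (`H` is a multiple of `K_Y`), any Fano variety (`H` is
a multiple of `- K_Y`), any smooth complete intersection of dimension `≥ 3`, and any abelian cover of such
a variety which is branched only along the divisors `x k = 0`. These remarks are not used and not
proved here.

**The models.** Let `X'` be a normal projective variety which is `ℚ`-Gorenstein, but perhaps not
`ℚ`-factorial, and let `X --> X'` be a birational map whose inverse contracts no divisor, such that
the prime divisors on `X` which it contracts have nonnegative discrepancies on `X'` (for instance if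
`X'` has terminal singularities). Let `k P` be the coefficients of the pullback of the pushforward of
the divisor `∑ i, κ i * D i` to `X'`, so that the discrepancy of `X'` along `P` is `- k P` plus a number
which depends only on `P`. Let `A` be an ample `ℚ`-divisor on `X'`, `α P` the coefficients of its
pullback, and `lam` a combination such that the image on `X` of the pullback of `A` is
`∑ i, lam i * D i` (only models with such a divisor `A` are considered; there is one after a change of `A`
in its `ℚ`-linear equivalence class if the classes of the `D i` span the divisor class group of `X` over
`ℚ`, for instance if `Y` has only `ℚ`-factorial singularities and Picard number one, if the divisors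
`x k = 0` are irreducible up to multiplicities, as well as the strata which are modified, and if the `D i`
generate the pullbacks of the toric divisors, `X` being given by a simplicial fan). For small
rational `t ≥ 0` the divisor `A + t K` on `X'` is ample; it has the coefficients `α P + t * k P`. The
combinations `m * (lam i + t * κ i)` which are integral have the same sections on `X` as
`m (A + t K)` on `X'` (the prime divisors which are contracted have nonnegative discrepancies on `X'`),
and have no base points on `X'` for suitable `m`. This is `IsModel`.

**The theorem.** There is a number `B` such that for every combination `κ`, among any `B + 1` models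
there are two with the same coefficients `k P` (with the same discrepancies), and every sequence of
models in which no discrepancy decreases and at least one increases in every step has less than `B`
steps.

So let `X 0` be a projective `ℚ`-Gorenstein variety with terminal singularities with a birational map
`X --> X 0` whose inverse contracts no divisor; for instance let `X` be a toroidal resolution of `X 0`. Suppose
that the classes of the `D i` span the divisor class group of `X` over `ℚ`, or only that there are ample
divisors in their span on the varieties in the sequence. Then every sequence of flips in the sense of
the problem (without `ℚ`-factoriality; the contractions in the sequence may also contract divisors)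
which starts at `X 0` is finite, and its length is less than a number `B` which depends only on `X`. Indeed the `X j` in
the sequence are models, and the discrepancies increase as recalled in the problem file. The same holds
for the divisors `K + Δ` and their flips. The `X j` are in general not modifications of `Y` given by fans.
In contrast to the flips of `ℚ`-factorial varieties, the spaces of the classes of the `ℚ`-Cartier
divisors on the `X j` can be different subspaces of the space of the classes of divisors; the models
are described only by the germs of the segments `lam + t κ`.

**Relation to the other results.** `MP_a06248_ag.NormalCrossingCovers` is the same conclusion for the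
abelian covers `Y` of the projective `n`-space which are branched along `n + 1` hypersurfaces with normal
crossings (there the `x k` are powers of the forms of the hypersurfaces), and
`MP_a06248_ag.FlipsWithoutFactoriality` for the abelian covers of products of projective spaces with one
smooth hypersurface in each factor. Here `Y` is arbitrary.

**Proof.** New is the finite generation of the Cox ring of the `D i` (`Pool/Agent/U189/FV`): the sections
are integral over the sections on the toric variety, and they are contained in a finitely generated
module over the algebra of the monomials in a cone; every `Y` with a finite morphism to the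
projective space is allowed. The deduction of the bound from the finite generation is a library theorem
(`Pool/Agent/Q57/HK/Dir`).
-/

set_option autoImplicit false

open FF MvPolynomial Pool.Agent.W602.GT

namespace Pool.Agent.Results.MP_a06248_ag.FiniteCoverFlips

open Pool.Agent.Results.MP_89a3f8_ag.TerminationOfFlips (IsSection)
open Pool.Agent.U189.ND (affine minimalOrder InCone)
open Pool.Agent.U189.FV

section defs

variable {K : Type} [Field K] [Algebra ℂ K] {p : ℕ} (N : ℕ) (δ : Fin p → Place ℂ K → ℚ)

/-- `α P` and `k P` are the coefficients, at the prime divisors `P` over `X`, of the pullbacks from a
model `X'` of an ample divisor `A` with the combination `lam` and of the divisor `K` with the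
combination `κ`: for all small rational `t ≥ 0`, the combinations `m * (lam i + t * κ i)` which are
integral have the same sections as the divisor `m (A + t K)` on `X'`, which has the coefficients
`m * (α P + t * k P)`; and for some `m ≥ 1` this divisor has for every `P` a section whose order at
`P` is the minimal one. -/
def IsModel (κ lam : Fin p → ℚ) (α k : Place ℂ K → ℚ) : Prop :=
  ∃ ε : ℚ, 0 < ε ∧ ∀ t : ℚ, 0 ≤ t → t ≤ ε →
    (∀ (m : ℕ) (ν : Fin p → ℤ), (∀ i, (m : ℚ) * (lam i + t * κ i) = ν i) → ∀ f : K,
      (IsSection N δ ν f ↔ ∀ P : Place ℂ K, Divisorial N P →
        f = 0 ∨ - (m * (α P + t * k P)) ≤ P.ord f)) ∧
    ∃ m : ℕ, 1 ≤ m ∧ ∃ ν : Fin p → ℤ, (∀ i, (m : ℚ) * (lam i + t * κ i) = ν i) ∧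
      ∀ P : Place ℂ K, Divisorial N P → ∃ f : K, f ≠ 0 ∧ IsSection N δ ν f ∧
        (P.ord f : ℚ) ≤ - (m * (α P + t * k P))

end defs

/-- **Termination of flips without `ℚ`-factoriality.** Let `K` be the function field of
a normal projective variety `Y` of dimension `n`, `x 0, ..., x n` sections of an ample line bundle without
common zeros, `X` the normalization in `K` of the toric modification of the projective `n`-space which is
given by `fan`, and `D i`, `i < p`, the pullbacks of toric `ℚ`-Cartier divisors with the degrees `β i` and the
coefficients `c i`. There is a number `B` such that for every
rational combination `κ`:
(1) among any `B + 1` models there are two with the same coefficients `k P` at all prime divisors `P`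
over `X`;
(2) every sequence of models in which no coefficient `k P` increases and some coefficient becomes
smaller in every step (no discrepancy decreases and some discrepancy becomes larger) has less than
`B` steps. -/
theorem result (n p : ℕ) (hn : 1 ≤ n) (K : Type) [Field K] [Algebra ℂ K] (x : Fin (n + 1) → K)
    (hx0 : x 0 ≠ 0) (hbas : IsTranscendenceBasis ℂ (affine x))
    (hfin : FiniteDimensional (IntermediateField.adjoin ℂ (Set.range (affine x))) K)
    (fan : Finset (Finset (Fin (n + 1) → ℕ))) (hfan : IsFan fan)
    (c : Fin p → (Fin (n + 1) → ℕ) → ℚ) (β : Fin p → ℤ)
    (u : Finset (Fin (n + 1) → ℕ) → Fin p → Fin (n + 1) → ℚ)
    (hlin : ∀ σ ∈ fan, ∀ i v, (∃ k, v k = 0) → InCone σ v → c i v = ∑ k, u σ i k * v k)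
    (δ : Fin p → Place ℂ K → ℚ) (hδ : ∀ i P, δ i P = coefficient x (c i) (β i) P) :
    ∃ B : ℕ, ∀ κ : Fin p → ℚ,
      (∀ (lam : Fin (B + 1) → Fin p → ℚ) (α k : Fin (B + 1) → Place ℂ K → ℚ),
        (∀ j, IsModel n δ κ (lam j) (α j) (k j)) →
        ∃ j j' : Fin (B + 1), j < j' ∧ ∀ P : Place ℂ K, Divisorial n P → k j P = k j' P) ∧
      ∀ (L : ℕ) (lam : ℕ → Fin p → ℚ) (α k : ℕ → Place ℂ K → ℚ),
        (∀ j ≤ L, IsModel n δ κ (lam j) (α j) (k j)) →
        (∀ j < L, (∀ P : Place ℂ K, Divisorial n P → k (j + 1) P ≤ k j P) ∧
          ∃ P : Place ℂ K, Divisorial n P ∧ k (j + 1) P < k j P) → L < B :=
  Pool.Agent.Q57.HK.term_dir (cox_fv n p hn K x hx0 hbas hfin fan hfan c β u hlin δ hδ)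

end Pool.Agent.Results.MP_a06248_ag.FiniteCoverFlips
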