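import Pool.Agent.U189.FV.Top
import Pool.Agent.U189.FV.Cvx
import Pool.Agent.U189.MG.Dsm

/-!
# The minimal model program with scaling of any ample class, without `ℚ`-factoriality, on the
# modifications of arbitrary varieties with a finite morphism to a toric variety

**The varieties.** Let `Y` be any normal projective variety of dimension `n ≥ 1` over `ℂ` with the
function field `K`, and `x 0, ..., x n` sections of an ample line bundle `H` on `Y` without common zeros.
They define a finite morphism from `Y` to the projective `n`-space. `X` is the normalization in `K` of the
toric modification of the projective space which is given by `fan`: a modification of `Y` with a finite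
morphism to a toric variety, and a toroidal modification of `Y` if the divisors `x k = 0` have normal
crossings (see `Pool/Agent/U189/FV/Top.lean`, where the definitions `affine`, `minimalOrder`,
`multiplicities`, `InCone`, `IsFan` and `coefficient` are explained). `D 1, ..., D p` are the pullbacks to
`X` of toric `ℚ`-Cartier divisors; the coefficients of their pullbacks at the prime divisors `P` over `X` are
the `δ i P`.

**The canonical class.** If `K_Y` is `ℚ`-linearly equivalent to a rational multiple of `H` and the divisors `x k = 0`
are multiples of divisors with normal crossings, then `K_X` is `ℚ`-linearly equivalent to a rational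
combination `∑ i, κ i * D i` (if the `D i` generate the pullbacks of the toric divisors). Here `Y` can be any Calabi-Yau variety, any abelian variety,
any hyperkähler variety, any variety with ample `K_Y` (`H` is a multiple of `K_Y`), any Fano variety (`H` is
a multiple of `- K_Y`), any smooth complete intersection of dimension `≥ 3`, and any abelian cover of such
a variety which is branched only along the divisors `x k = 0`. These remarks are not used and not
proved here.

**The models.** Let `X'` be a normal projective variety which is `ℚ`-Gorenstein, but perhaps not
`ℚ`-factorial, and let `X --> X'` be a birational map whose inverse contracts no divisor, such that the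
prime divisors on `X` which it contracts have nonnegative discrepancies on `X'` (for instance if `X'` has
terminal singularities). Let `A` be an ample `ℚ`-divisor on `X'` whose pullback has the image
`∑ i, lam i * D i` on `X`, `a P` the coefficients of the pullback of `A`, and `k P` the coefficients of the
pullback of the pushforward `K` of `∑ i, κ i * D i`; the discrepancy of `X'` along `P` is `- k P` plus a
number which depends only on `P`. For small rational `t ≥ 0` the divisor `A + t K` on `X'` is ample, with
the coefficients `a P + t * k P` (`HasCoefficients`: the multiples of `lam + t κ` have the same sections on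
`X` as those of `A + t K` on `X'`, and some multiple has no base points on `X'`). This is `IsModel`.

**The theorem.** There is a number `C`, which depends only on `X`, such that for every `κ` and for every
model `X'` with an ARBITRARY ample class `lam` there are at most `C` rational numbers (the set `R`) such
that for the combinations `lam + t κ`, `t ≥ 0`:
(1) for each `t` not in `R` such that `lam + t κ` has a multiple with a section there is a model `X t` with the
ample class `lam + t κ`, on which `K` is `ℚ`-Cartier, with the coefficients `k t P`;
(2) it is the same model (the same coefficients of `A` and `K`) for all `t` between two neighbouring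
elements of `R`, and `X t = X'` for small `t > 0`;
(3) at the elements `r` of `R` the combination `lam + r κ` is semiample on `X t` for `t` in the two
neighbouring intervals (as long as these combinations have multiples with sections). So there are
morphisms `X t → Z ← X t'`, `t < r < t'`, with the same `Z`, on which `K` is negative on the left (`lam + t κ`
is ample for `t < r`), and ample over `Z` on the right: the steps of the minimal model program with
scaling, where `X t'` is the flip, or the target of a divisorial contraction;
(4) the discrepancies do not decrease in these steps;
(5) if `lam + t κ` has a multiple with a section for some `t` above all elements of `R` then `K` is semiample on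
the last model `X t`, which is a good minimal model. If not, then the program ends with the last `r` for
which `lam + t κ` has multiples with sections on the left of `r` only (Mori fibre space).

So for every projective `ℚ`-Gorenstein variety `X 0` with terminal singularities which is dominated by `X`
as above (ample classes in the span of the `D i`), and for every ample class of `X 0` in the span, the
program with scaling in the category of `ℚ`-Gorenstein varieties without `ℚ`-factoriality exists, has
less than `C + 2` steps, and ends with a good minimal model or a Mori fibre space. The steps are the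
contractions of the faces of the cone of curves on which `lam + r κ` is zero, which are rays for general
`lam`. Here `κ` can be any rational combination, also `K + Δ` for pairs with arbitrary singularities, and
non-big classes; for terminal varieties the existence of the flips is known, but not the termination
and not the semiampleness of `K` at the end.

**Relation to the other results.** `MP_a06248_ag.FiniteCoverFlips` is the termination of all sequences of
flips for this class, without the existence of the steps and without the end of the program.
`MP_89a3f8_ag.FiniteCoverScaling` is the program with scaling of a general class near a given ample one,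
in which all the `D i` are `ℚ`-Cartier on all the varieties; here the class is arbitrary, only `κ` is
`ℚ`-Cartier on the models, and their number is bounded.

**Proof.** New is the finite generation of the Cox ring of the `D i` (`Pool/Agent/U189/FV`): the sections
are integral over the sections on the toric variety, and they are contained in a finitely generated
module over the algebra of the monomials in a cone; every `Y` with a finite morphism to the
projective space is allowed. The theorem is deduced from it in `Pool/Agent/U189/MG/Dsc.lean` and
`Dsm.lean`: the cones which are spanned by degrees of generators of the Cox ring are given by finitely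
many linear inequalities, each of which changes its sign at most once on the line; a solution of the
dual linear program for the orders at `P`, for one `t`, is a solution for all `t` in the same interval.
-/

set_option autoImplicit false

open FF MvPolynomial Pool.Agent.W602.GT

namespace Pool.Agent.Results.MP_a06248_ag.FiniteCoverScaling

open Pool.Agent.Results.MP_89a3f8_ag.TerminationOfFlips (IsSection)
open Pool.Agent.U189.ND (affine minimalOrder InCone)
open Pool.Agent.U189.FV

section defs

variable {K : Type} [Field K] [Algebra ℂ K] {p : ℕ} (N : ℕ) (δ : Fin p → Place ℂ K → ℚ)

/-- Some multiple of the rational combination `μ` has a nonzero section. -/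
def IsEffective (μ : Fin p → ℚ) : Prop :=
  ∃ m : ℕ, 1 ≤ m ∧ ∃ ν : Fin p → ℤ, (∀ i, (m : ℚ) * μ i = ν i) ∧ ∃ f : K, f ≠ 0 ∧ IsSection N δ ν f

/-- The numbers `a P` are the coefficients, at the prime divisors `P` over `X`, of the pullbacks of a
semiample divisor on some variety with the combination `μ`: the integral multiples of `μ` have the same
sections as those of this divisor; and for some `m ≥ 1` the multiple by `m` has for every `P` a section
whose order at `P` is the minimal one. -/
def HasCoefficients (μ : Fin p → ℚ) (a : Place ℂ K → ℚ) : Prop :=
  (∀ (m : ℕ) (ν : Fin p → ℤ), (∀ i, (m : ℚ) * μ i = ν i) → ∀ f : K,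
    (IsSection N δ ν f ↔ ∀ P : Place ℂ K, Divisorial N P → f = 0 ∨ - (m * a P) ≤ P.ord f)) ∧
  ∃ m : ℕ, 1 ≤ m ∧ ∃ ν : Fin p → ℤ, (∀ i, (m : ℚ) * μ i = ν i) ∧
    ∀ P : Place ℂ K, Divisorial N P → ∃ f : K, f ≠ 0 ∧ IsSection N δ ν f ∧
      (P.ord f : ℚ) ≤ - (m * a P)

/-- The combination `lam` on `line` at `t`. -/
def line (lam κ : Fin p → ℚ) (t : ℚ) (i : Fin p) : ℚ := lam i + t * κ i

/-- `a P` and `k P` are the coefficients, at the prime divisors `P` over `X`, of the pullbacks from a
model `X'` of an ample divisor `A` with the combination `lam` and of the divisor `K` with the
combination `κ`: for all small rational `s ≥ 0` the combination `lam + s κ` has the coefficients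
`a P + s * k P`. -/
def IsModel (κ lam : Fin p → ℚ) (a k : Place ℂ K → ℚ) : Prop :=
  ∃ ε : ℚ, 0 < ε ∧ ∀ s : ℚ, 0 ≤ s → s ≤ ε →
    HasCoefficients N δ (line lam κ s) fun P => a P + s * k P

end defs

/-- **The minimal model program with scaling without `ℚ`-factoriality.** Let `K` be the function field of
a normal projective variety `Y` of dimension `n`, `x 0, ..., x n` sections of an ample line bundle without
common zeros, `X` the normalization in `K` of the toric modification of the projective `n`-space which is
given by `fan`, and `D i`, `i < p`, the pullbacks of toric `ℚ`-Cartier divisors with the degrees `β i` and the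
coefficients `c i`. There is a number `C`
such that for all rational combinations `κ` and `lam` and every model `X'` with the ample class `lam` (with the
coefficients `a₀`, and `k₀` of `κ`) there are a set `R` of at most `C` rational numbers and numbers `a t P`,
`k t P` such that:
(1) for each `t` not in `R` such that `lam + t κ` is effective, `a t P + t * k t P` and `k t P` are the
coefficients of a model with the ample class `lam + t κ`;
(2) they are the same for all `t` between two neighbouring elements of `R`, and equal to `a₀`, `k₀` for
small `t > 0`;
(3) if `lam + t κ` is effective and no element of `R` is strictly between `t` and `r` or equal to `t` then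
`lam + r κ` is semiample on the model of `t`, with the coefficients `a t P + r * k t P`;
(4) `k t P` does not increase with `t`;
(5) if `lam + t κ` is effective and `t` is larger than all elements of `R` then `κ` is semiample on the model
of `t`, with the coefficients `k t P`. -/
theorem result (n p : ℕ) (hn : 1 ≤ n) (K : Type) [Field K] [Algebra ℂ K] (x : Fin (n + 1) → K)
    (hx0 : x 0 ≠ 0) (hbas : IsTranscendenceBasis ℂ (affine x))
    (hfin : FiniteDimensional (IntermediateField.adjoin ℂ (Set.range (affine x))) K)
    (fan : Finset (Finset (Fin (n + 1) → ℕ))) (hfan : IsFan fan)
    (c : Fin p → (Fin (n + 1) → ℕ) → ℚ) (β : Fin p → ℤ)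
    (u : Finset (Fin (n + 1) → ℕ) → Fin p → Fin (n + 1) → ℚ)
    (hlin : ∀ σ ∈ fan, ∀ i v, (∃ k, v k = 0) → InCone σ v → c i v = ∑ k, u σ i k * v k)
    (δ : Fin p → Place ℂ K → ℚ) (hδ : ∀ i P, δ i P = coefficient x (c i) (β i) P) :
    ∃ C : ℕ, ∀ (κ lam : Fin p → ℚ) (a₀ k₀ : Place ℂ K → ℚ), IsModel n δ κ lam a₀ k₀ →
      ∃ (R : Finset ℚ) (a k : ℚ → Place ℂ K → ℚ), R.card ≤ C ∧
        (∀ t : ℚ, t ∉ R → IsEffective n δ (line lam κ t) →
          IsModel n δ κ (line lam κ t) (fun P => a t P + t * k t P) (k t)) ∧
        ((∀ t t' : ℚ, IsEffective n δ (line lam κ t) → t ≤ t' → (∀ r ∈ R, ¬ (t ≤ r ∧ r ≤ t')) →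
            ∀ P : Place ℂ K, Divisorial n P → a t P = a t' P ∧ k t P = k t' P) ∧
          ∀ t : ℚ, 0 < t → (∀ r ∈ R, ¬ (0 < r ∧ r ≤ t)) →
            ∀ P : Place ℂ K, Divisorial n P → a t P = a₀ P ∧ k t P = k₀ P) ∧
        (∀ t r : ℚ, IsEffective n δ (line lam κ t) →
          (∀ q ∈ R, ¬ (t ≤ q ∧ q < r) ∧ ¬ (r < q ∧ q ≤ t)) →
          HasCoefficients n δ (line lam κ r) fun P => a t P + r * k t P) ∧
        (∀ t t' : ℚ, IsEffective n δ (line lam κ t) → IsEffective n δ (line lam κ t') → t ≤ t' →
          t ∉ R → t' ∉ R → ∀ P : Place ℂ K, Divisorial n P → k t' P ≤ k t P) ∧
        ∀ t : ℚ, IsEffective n δ (line lam κ t) → (∀ r ∈ R, r < t) →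
          HasCoefficients n δ κ (k t) := by
  classical
  have hFG := cox_fv n p hn K x hx0 hbas hfin fan hfan c β u hlin δ hδ
  obtain ⟨P0, hP0⟩ : ∃ P0 : Place ℂ K, Divisorial n P0 := by
    obtain ⟨d, rfl⟩ : ∃ d, n = d + 1 := ⟨n - 1, by omega⟩
    obtain ⟨P0, -, hP0, -⟩ := exists_place_vec hx0 hbas hfin (v := Function.update 0 0 1)
      (fun h => by simpa using congrFun h 0) ⟨1, by simp⟩
    exact ⟨P0, hP0⟩
  obtain ⟨C, hC⟩ := Pool.Agent.U189.MG.Dsc.desc_main hFG hP0
  refine ⟨C, fun κ lam a₀ k₀ hX => ?_⟩
  obtain ⟨R, a, k, h0, h1, h2, h3, h4, h5⟩ := hC κ lam
  obtain ⟨ε₀, hε₀, hX⟩ := hX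
  refine ⟨R, a, k, h0, fun t htR ht => ?_, ⟨h2, h5 a₀ k₀ ε₀ hε₀ hX⟩, h1, h3, h4⟩
  obtain ⟨ε, hε, hεR⟩ : ∃ ε : ℚ, 0 < ε ∧ ∀ q ∈ R, ¬ (t ≤ q ∧ q ≤ t + ε) := by
    have key : ∀ S : Finset ℚ, t ∉ S → ∃ ε : ℚ, 0 < ε ∧ ∀ q ∈ S, ¬ (t ≤ q ∧ q ≤ t + ε) := by
      intro S
      induction S using Finset.induction_on with
      | empty => exact fun _ => ⟨1, one_pos, fun q hq => by simp at hq⟩
      | insert q S hq ih =>
        intro hS
        rw [Finset.mem_insert, not_or] at hS
        obtain ⟨ε, hε, h⟩ := ih hS.2
        rcases lt_or_gt_of_ne hS.1 with hlt | hlt
        · refine ⟨min ε ((q - t) / 2), lt_min hε (by linarith), fun q' hq' hh => ?_⟩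
          rcases Finset.mem_insert.1 hq' with rfl | hq'
          · linarith [hh.2, min_le_right ε ((q' - t) / 2)]
          · exact h q' hq' ⟨hh.1, by linarith [hh.2, min_le_left ε ((q - t) / 2)]⟩
        · refine ⟨ε, hε, fun q' hq' hh => ?_⟩
          rcases Finset.mem_insert.1 hq' with rfl | hq'
          · linarith [hh.1]
          · exact h q' hq' hh
    exact key R htR
  refine ⟨ε, hε, fun s hs0 hs1 => ?_⟩
  have h6 := h1 t (t + s) ht fun q hq => ⟨fun h => hεR q hq ⟨h.1, by linarith [h.2]⟩,
    fun h => by linarith [h.1, h.2]⟩
  have e1 : line (line lam κ t) κ s = fun i => lam i + (t + s) * κ i := by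
    funext i
    simp only [line]
    ring
  have e2 : (fun P => a t P + t * k t P + s * k t P) = fun P => a t P + (t + s) * k t P := by
    funext P
    ring
  rw [e1, e2]
  exact h6

end Pool.Agent.Results.MP_a06248_ag.FiniteCoverScaling
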