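import Pool.Agent.U976.TJ.B

/-!
# Termination of flips without `ℚ`-factoriality on finite quotients of toric bundles over minimal varieties

Let `X` be a projective `ℚ`-Gorenstein variety of any dimension with nef `K_X`. Let `Y → X` be a toric bundle:
it is given by `n` arbitrary line bundles on `X`, with the classes `N l`, and by any complete projective fan in
`ℝ ^ n`, simplicial or not, such that the fibre `F` is `ℚ`-Gorenstein. Let `Z = Y / G`, where `G` is any finite
group of automorphisms of `Y` which acts freely in codimension one. (`G` may act on `X`, permute the line
bundles and act on the fan. So `Z → X / G` can be a fibration with the fibres `F` and with any finite monodromy,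
and with multiple fibres; the classes of the rays of `F` on `Z` can be conjugate, and the Picard number of `Z`
over `X / G` can be one although the fibres have many contractions.)

**Theorem.** Every extremal ray of the cone of curves of `Z` on the `K_Z`-negative side is contained in the
fibres of `Z → X / G`. Every sequence of flips in the sense of the problem which starts at `Z` is finite (the
contractions in the sequence are of any kind which is birational, small or not, and nothing is assumed about
singularities or `ℚ`-factoriality except that the canonical divisors are `ℚ`-Cartier; this holds in
particular if `Z` has terminal singularities). The length is less than the number of the complete projective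
fans whose rays are rays of the fan of `F`, a bound which depends on nothing else, in particular not on `X`,
the line bundles and `G`.

If `X` is a point and `G = 1` this is the case of toric varieties, which is known (it is contained in the
spherical case).

The dictionary, which is not formalized: let `Z = Z_0, Z_1, ...` be a sequence of flips and `Y_j` the
normalization of `Z_j` in the function field of `Y`. As no new divisors appear, `Y_j → Z_j` is finite and étale
in codimension one, so `K` of `Y_j` is the pullback of `K` of `Z_j`. The pullback `H` to `Y_j` of an ample class
of the contraction of an extremal ray `R` of `Z_j` is nef, and the pushforward to `Z_j` of each nonzero class in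
the cone of curves of `Y_j` on which `H` is zero is nonzero and in `R`; so `K` is negative on this face of the
cone of curves of `Y_j`. This is `IsNegativeFace`. The theorem says that the face is contained in the fibres over
`X`, so its contraction is fibre by fibre a contraction of toric varieties, and `Y_(j + 1)`, on which `K + t H` is
ample, is the toric bundle over `X` given by a fan whose rays are rays of the fan of `F`. This is `IsStep`.

The proof that negative faces are vertical: let `H = (h, c)` be the nef class. If for some cone of the fan the
restriction of `H` to the corresponding section of `Y → X` were not ample, there would be a linear form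
`ψ ≠ 0` on `N^1(X)` which is nonnegative on the nef cone and zero on this restriction; the curves with the class
`ψ` in the section given by a cone of the fan which contains the vector `ψ (N l)` have a smallest class, up to
curves in the fibres, so `H` is zero on it, but the degree of `K_Y` on it is the degree of `K_X` plus a nonnegative
number. So all these restrictions are ample, and `H` stays nef when it is changed by a small class of `X`;
hence the pushforward to `X` of each element of the face is zero. For the termination: the support functions of
`K` on the fans change in one direction in all steps, and if one of them were unchanged then the ample class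
`K + t H` on `Y'` would be nef on `Y`, but it is negative on the face.

The definitions are in `Pool.Agent.U976.LT.Defs` (`pr` and `IsNef`), `Pool.Agent.U976.TG.Defs` and
`Pool.Agent.U976.TJ.Defs` (`IsNegativeFace` and `IsStep`).
-/

set_option autoImplicit false

namespace Pool.Agent.Results.MP_a06248_ag.FiniteQuotients

open Pool.Agent.U976.LT (pr IsNef)
open Pool.Agent.U976.TG Pool.Agent.U976

/-- Let `W` be a real normed space (`N^1(X)`), `C` a convex cone in it with nonempty interior (the nef
cone), `κ ∈ C` (the class of `K_X`), `N l ∈ W`, `l < n`, and `Y` the toric bundle given by the `N l` and a
complete projective fan `S` with rays generated by vectors `u i`, such that `K_Y`, that is, the class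
`(-1, κ)`, is `ℚ`-Cartier. Let `T 0 = S, T 1, ..., T m` be the fans in a sequence of steps for the canonical
class, each of which contracts a canonically negative face of any dimension. Then `m` is less than the number
of the complete projective fans with rays generated by some of the `u i`, and the pushforward to `X` of every
element of a canonically negative face of the last variety (so of each of them) is zero. -/
theorem result {ι : Type*} [Fintype ι] {n : ℕ} {W : Type*} [NormedAddCommGroup W] [NormedSpace ℝ W]
    (C : Set W) (hadd : ∀ x ∈ C, ∀ y ∈ C, x + y ∈ C)
    (hsmul : ∀ t : ℝ, 0 ≤ t → ∀ x ∈ C, t • x ∈ C) (hint : (interior C).Nonempty) (κ : W) (hκ : κ ∈ C)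
    (N : Fin n → W) (u : ι → Fin n → ℤ) (S : Set (Set ι)) (hS : IsFan u S)
    (hK : IsCartier u S (fun _ => -1)) (m : ℕ) (T : ℕ → Set (Set ι)) (h0 : T 0 = S)
    (hT : ∀ j < m, TJ.IsStep u (T j) (T (j + 1)) C N (fun _ => -1) κ) :
    m < Nat.card {S' : Set (Set ι) // IsFan u S'} ∧
      ∀ (h : ι → ℝ) (c : W), TJ.IsNegativeFace u (T m) C N (fun _ => -1) κ h c →
        ∀ R ∈ NE u (T m) C N, deg R h c = 0 → R.2 = 0 := by
  have hC0 : (0 : W) ∈ C := by simpa using hsmul 0 le_rfl κ hκ
  have hlc : TJ.IsLC u S C N (fun _ => 0) 0 :=
    TJ.lc_toric (fun _ => le_rfl) (fun _ => zero_le_one) hC0
  obtain ⟨h1, h2, h3⟩ := TJ.programs (b := fun _ => 0) (α := 0) (δ := κ) hS (by simpa using hK) hlc h0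
    (by simpa using hT)
  refine ⟨h1, fun h c hs R hR hR0 => ?_⟩
  exact TJ.vertical (κ := κ) h2 hadd hsmul hint hκ h3 (by simpa using hs) hR hR0

end Pool.Agent.Results.MP_a06248_ag.FiniteQuotients
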