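import Pool.Agent.U660.MD.Nef
import Pool.Agent.Q57.CX.Top
import Pool.Agent.U189.MG.Dsn

/-!
# The minimal model program with scaling of any ample class, without `ℚ`-factoriality, on covers of
# products of projective spaces

**The varieties.** Let `F i` be a form of degree `d i` in `n i + 1` variables whose zero set in the
projective `n i`-space is a smooth hypersurface, and let `H i` be the cyclic hypersurface
`w ^ (d i) = F i` in the projective `(n i + 1)`-space. Let `Y` be a quotient `(H 1 × ... × H r) / G`, where
`G` is any group of diagonal automorphisms `w i ↦ ζ i * w i`, `ζ i ^ (d i) = 1`: an abelian cover of the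
product of the projective `n i`-spaces which is branched along the hypersurfaces `F i = 0` of the
factors. Its function field `K` is generated by the affine coordinates `x i j / x i 0` and by roots `z j`,
`z j ^ (m j) = ∏ i, (F i (x i) / x i 0 ^ (d i)) ^ (a j i)`, where `m j` divides `a j i * d i`. `X` is the
toroidal modification of `Y` which is given by `fan`, and `D 1, ..., D p` are toroidal `ℚ`-Cartier divisors
on `X`; the coefficients of their pullbacks at the prime divisors `P` over `X` are the `δ i P`. See
`Pool.Agent.Results.MP_89a3f8_ag.TerminationOfFlips`, whose definitions (`Smooth`, `Admissible`,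
`InCone`, `IsFan`, `affine`, `minimalOrder`, `multiplicities`, `coefficient`, `IsSection`,
`BasePointFree`, `Semiample`, `IsSmallModification`) are used here. If all `n i ≥ 3` and if the `D i`
generate the toroidal divisors of a `ℚ`-factorial `X` then all divisors on `X` are rational combinations of
the `D i` up to `ℚ`-linear equivalence (Lefschetz; this remark is not used and not proved here). There is
no condition on the dimensions and the degrees.

**The models.** Let `X'` be a normal projective variety which is `ℚ`-Gorenstein, but perhaps not
`ℚ`-factorial, and let `X --> X'` be a birational map whose inverse contracts no divisor, such that the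
prime divisors on `X` which it contracts have nonnegative discrepancies on `X'` (for instance if `X'` has
terminal singularities). Let `A` be an ample `ℚ`-divisor on `X'` whose pullback has the image
`∑ i, lam i * D i` on `X`, `a P` the coefficients of the pullback of `A`, and `k P` the coefficients of the
pullback of the pushforward `K` of `∑ i, κ i * D i`; the discrepancy of `X'` along `P` is `- k P` plus a
number which depends only on `P`. For small rational `t ≥ 0` the divisor `A + t K` on `X'` is ample, with
the coefficients `a P + t * k P` (`HasCoefficients`: the multiples of `lam + t κ` have the same sections on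
`X` as those of `A + t K` on `X'`, and some multiple has no base points on `X'`). This is `IsModel`.

**The theorem.** There is a number `C`, which depends only on `X`, such that for every `κ` and for every
model `X'` with an ARBITRARY ample class `lam` there are at most `C` rational numbers (the set `R`) such
that for the combinations `lam + t κ`, `t ≥ 0`:
(1) for each `t` not in `R` such that `lam + t κ` has a multiple with a section there is a model `X t` with the
ample class `lam + t κ`, on which `K` is `ℚ`-Cartier, with the coefficients `k t P`;
(2) it is the same model (the same coefficients of `A` and `K`) for all `t` between two neighbouring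
elements of `R`, and `X t = X'` for small `t > 0`;
(3) at the elements `r` of `R` the combination `lam + r κ` is semiample on `X t` for `t` in the two
neighbouring intervals (as long as these combinations have multiples with sections). So there are
morphisms `X t → Z ← X t'`, `t < r < t'`, with the same `Z`, on which `K` is negative on the left (`lam + t κ`
is ample for `t < r`), and ample over `Z` on the right: the steps of the minimal model program with
scaling, where `X t'` is the flip, or the target of a divisorial contraction;
(4) the discrepancies do not decrease in these steps;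
(5) if `lam + t κ` has a multiple with a section for some `t` above all elements of `R` then `K` is semiample on
the last model `X t`, which is a good minimal model. If not, then the program ends with the last `r` for
which `lam + t κ` has multiples with sections on the left of `r` only (Mori fibre space).

So for every projective `ℚ`-Gorenstein variety `X 0` with terminal singularities which is dominated by `X`
as above (ample classes in the span of the `D i`), and for every ample class of `X 0` in the span, the
program with scaling in the category of `ℚ`-Gorenstein varieties without `ℚ`-factoriality exists, has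
less than `C + 2` steps, and ends with a good minimal model or a Mori fibre space. The steps are the
contractions of the faces of the cone of curves on which `lam + r κ` is zero, which are rays for general
`lam`. Here `κ` can be any rational combination, also `K + Δ` for pairs with arbitrary singularities, and
non-big classes; for terminal varieties the existence of the flips is known, but not the termination
and not the semiampleness of `K` at the end.

**Relation to the other results.** `MP_a06248_ag.FiniteCoverScaling` is the same conclusion for another
class (finite covers of toric modifications of the projective `n`-space; there the toric divisors are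
pulled back from one projective space). `MP_a06248_ag.FlipsWithoutFactoriality` (a starting result) is the
termination of all sequences of flips for the present class, without the existence of the steps
and the end of the program. `MP_a27c81_ag.ProductCoverScaling` is the program with scaling of a general
class near a given ample one, in which all the `D i` are `ℚ`-Cartier on all the varieties.

**Proof.** The Cox ring of the `D i` is finitely generated (`Pool/Agent/Q57/CX`, library). The theorem is
deduced from it in `Pool/Agent/U189/MG/Dsc.lean`, `Dsm.lean` and `Dsn.lean`.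
-/

set_option autoImplicit false

open FF MvPolynomial Pool.Agent.W602.GT

namespace Pool.Agent.Results.MP_a06248_ag.ProductCoverScaling

open Pool.Agent.Results.MP_89a3f8_ag.TerminationOfFlips

section defs

variable {K : Type} [Field K] [Algebra ℂ K] {p : ℕ} (N : ℕ) (δ : Fin p → Place ℂ K → ℚ)

/-- Some multiple of the rational combination `μ` has a nonzero section. -/
def IsEffective (μ : Fin p → ℚ) : Prop :=
  ∃ m : ℕ, 1 ≤ m ∧ ∃ ν : Fin p → ℤ, (∀ i, (m : ℚ) * μ i = ν i) ∧ ∃ f : K, f ≠ 0 ∧ IsSection N δ ν f

/-- The numbers `a P` are the coefficients, at the prime divisors `P` over `X`, of the pullbacks of a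
semiample divisor on some variety with the combination `μ`: the integral multiples of `μ` have the same
sections as those of this divisor; and for some `m ≥ 1` the multiple by `m` has for every `P` a section
whose order at `P` is the minimal one. -/
def HasCoefficients (μ : Fin p → ℚ) (a : Place ℂ K → ℚ) : Prop :=
  (∀ (m : ℕ) (ν : Fin p → ℤ), (∀ i, (m : ℚ) * μ i = ν i) → ∀ f : K,
    (IsSection N δ ν f ↔ ∀ P : Place ℂ K, Divisorial N P → f = 0 ∨ - (m * a P) ≤ P.ord f)) ∧
  ∃ m : ℕ, 1 ≤ m ∧ ∃ ν : Fin p → ℤ, (∀ i, (m : ℚ) * μ i = ν i) ∧
    ∀ P : Place ℂ K, Divisorial N P → ∃ f : K, f ≠ 0 ∧ IsSection N δ ν f ∧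
      (P.ord f : ℚ) ≤ - (m * a P)

/-- The combination `lam` on `line` at `t`. -/
def line (lam κ : Fin p → ℚ) (t : ℚ) (i : Fin p) : ℚ := lam i + t * κ i

/-- `a P` and `k P` are the coefficients, at the prime divisors `P` over `X`, of the pullbacks from a
model `X'` of an ample divisor `A` with the combination `lam` and of the divisor `K` with the
combination `κ`: for all small rational `s ≥ 0` the combination `lam + s κ` has the coefficients
`a P + s * k P`. -/
def IsModel (κ lam : Fin p → ℚ) (a k : Place ℂ K → ℚ) : Prop :=
  ∃ ε : ℚ, 0 < ε ∧ ∀ s : ℚ, 0 ≤ s → s ≤ ε →
    HasCoefficients N δ (line lam κ s) fun P => a P + s * k P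

end defs

/-- **The minimal model program with scaling without `ℚ`-factoriality.** Let `K` be the function field of an
abelian cover `Y` of the product of the projective `n i`-spaces which is branched along smooth
hypersurfaces `F i = 0` of the factors, `X` the toroidal modification of `Y` which is given by `fan`, and
`D i`, `i < p`, toroidal `ℚ`-Cartier divisors on `X` with the degrees `β i t` and the coefficients `c i`. There
is a number `C` such that for all rational combinations `κ` and `lam` and every model `X'` with the ample
class `lam` (with the coefficients `α₀`, and `k₀` of `κ`) there are a set `T` of at most `C` rational numbers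
and numbers `α t P`, `k t P` such that:
(1) for each `t` not in `T` such that `lam + t κ` is effective, `α t P + t * k t P` and `k t P` are the
coefficients of a model with the ample class `lam + t κ`;
(2) they are the same for all `t` between two neighbouring elements of `T`, and equal to `α₀`, `k₀` for
small `t > 0`;
(3) if `lam + t κ` is effective and no element of `T` is strictly between `t` and `r` or equal to `t` then
`lam + r κ` is semiample on the model of `t`, with the coefficients `α t P + r * k t P`;
(4) `k t P` does not increase with `t`;
(5) if `lam + t κ` is effective and `t` is larger than all elements of `T` then `κ` is semiample on the model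
of `t`, with the coefficients `k t P`. -/
theorem result (r N R p : ℕ) (n d : Fin r → ℕ) (hr : 1 ≤ r) (hn : ∀ i, 1 ≤ n i)
    (hd : ∀ i, 1 ≤ d i) (hN : N = ∑ i, n i)
    (F : ∀ i, MvPolynomial (Fin (n i + 1)) ℂ) (hF : ∀ i, (F i).IsHomogeneous (d i))
    (hs : ∀ i, Smooth (F i)) (m : Fin R → ℕ) (hm : ∀ j, 1 ≤ m j) (a : Fin R → Fin r → ℕ)
    (hdiv : ∀ j i, m j ∣ a j i * d i)
    (K : Type) [Field K] [Algebra ℂ K] (x : ∀ i, Fin (n i + 1) → K) (hx0 : ∀ i, x i 0 ≠ 0)
    (hbas : IsTranscendenceBasis ℂ (affine x)) (z : Fin R → K)
    (hz : ∀ j, z j ^ m j = ∏ i, (aeval (x i) (F i) / x i 0 ^ d i) ^ a j i)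
    (hgen : IntermediateField.adjoin ℂ (Set.range (affine x) ∪ Set.range z) = ⊤)
    (fan : Finset (Finset (Fin r → ℕ))) (hfan : IsFan m a fan)
    (c : Fin p → (Fin r → ℕ) → ℚ) (hc0 : ∀ i, c i 0 = 0) (β : Fin p → Fin r → ℤ)
    (u : Finset (Fin r → ℕ) → Fin p → Fin r → ℚ)
    (hlin : ∀ σ ∈ fan, ∀ i v, Admissible m a v → InCone σ v → - c i v = ∑ k, u σ i k * v k)
    (δ : Fin p → Place ℂ K → ℚ) (hδ : ∀ i P, δ i P = coefficient F d x (c i) (β i) P) :
    ∃ C : ℕ, ∀ (κ lam : Fin p → ℚ) (α₀ k₀ : Place ℂ K → ℚ), IsModel N δ κ lam α₀ k₀ →
      ∃ (T : Finset ℚ) (α k : ℚ → Place ℂ K → ℚ), T.card ≤ C ∧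
        (∀ t : ℚ, t ∉ T → IsEffective N δ (line lam κ t) →
          IsModel N δ κ (line lam κ t) (fun P => α t P + t * k t P) (k t)) ∧
        ((∀ t t' : ℚ, IsEffective N δ (line lam κ t) → t ≤ t' → (∀ r ∈ T, ¬ (t ≤ r ∧ r ≤ t')) →
            ∀ P : Place ℂ K, Divisorial N P → α t P = α t' P ∧ k t P = k t' P) ∧
          ∀ t : ℚ, 0 < t → (∀ r ∈ T, ¬ (0 < r ∧ r ≤ t)) →
            ∀ P : Place ℂ K, Divisorial N P → α t P = α₀ P ∧ k t P = k₀ P) ∧
        (∀ t r : ℚ, IsEffective N δ (line lam κ t) →
          (∀ q ∈ T, ¬ (t ≤ q ∧ q < r) ∧ ¬ (r < q ∧ q ≤ t)) →
          HasCoefficients N δ (line lam κ r) fun P => α t P + r * k t P) ∧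
        (∀ t t' : ℚ, IsEffective N δ (line lam κ t) → IsEffective N δ (line lam κ t') → t ≤ t' →
          t ∉ T → t' ∉ T → ∀ P : Place ℂ K, Divisorial N P → k t' P ≤ k t P) ∧
        ∀ t : ℚ, IsEffective N δ (line lam κ t) → (∀ r ∈ T, r < t) →
          HasCoefficients N δ κ (k t) := by
  have hFG := Pool.Agent.Q57.CX.main_cox (N := N) hr hn hN hd hF hs hx0 hbas hm hdiv hz hgen
    (S := fan) ⟨hfan.adm, hfan.full, hfan.cover⟩ hc0 (u := u) hlin (β := β) hδ
  obtain ⟨C, hC⟩ := Pool.Agent.U189.MG.Dsc.desc_all hFG
  refine ⟨C, fun κ lam α₀ k₀ hX => ?_⟩
  obtain ⟨T, α, k, h0, h1, h2, h3, h4, h5⟩ := hC κ lam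
  obtain ⟨ε₀, hε₀, hX⟩ := hX
  refine ⟨T, α, k, h0, fun t htR ht => ?_, ⟨h2, h5 α₀ k₀ ε₀ hε₀ hX⟩, h1, h3, h4⟩
  obtain ⟨ε, hε, hεR⟩ := Pool.Agent.U189.MG.Dsc.gap t T htR
  refine ⟨ε, hε, fun s hs0 hs1 => ?_⟩
  have h6 := h1 t (t + s) ht fun q hq => ⟨fun h => hεR q hq ⟨h.1, by linarith [h.2]⟩,
    fun h => by linarith [h.1, h.2]⟩
  have e1 : line (line lam κ t) κ s = fun i => lam i + (t + s) * κ i := by
    funext i
    simp only [line]
    ring
  have e2 : (fun P => α t P + t * k t P + s * k t P) = fun P => α t P + (t + s) * k t P := by
    funext P
    ring
  rw [e1, e2]
  exact h6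

end Pool.Agent.Results.MP_a06248_ag.ProductCoverScaling
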